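import Mathlib
import Pool.Agent.N287.WF.Stm

/-! The derivative of the first coordinate of a selection. -/

open scoped Topology ContDiff Manifold
open Set Filter Bundle Pool.Agent.Helper186 Pool.Agent.H826R2 Pool.Agent.N287.WF

noncomputable section

namespace Pool.Agent.N75.WF

universe u v w

section

variable {E : Type u} [NormedAddCommGroup E] [NormedSpace ℝ E]
  {M : Type v} [TopologicalSpace M] [ChartedSpace E M]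

/-- derivative along a curve -/
theorem mfderiv_curve {F : ℝ × ℝ → M} {γ : ℝ × ℝ} {c : ℝ → ℝ × ℝ} {t : ℝ} {c' : ℝ × ℝ} {w : E}
    (hF : MDifferentiableAt 𝓘(ℝ, ℝ × ℝ) 𝓘(ℝ, E) F γ) (hct : c t = γ)
    (hc : HasFDerivAt c ((1 : ℝ →L[ℝ] ℝ).smulRight c') t)
    (h : HasMFDerivAt 𝓘(ℝ, ℝ) 𝓘(ℝ, E) (fun s => F (c s)) t ((1 : ℝ →L[ℝ] ℝ).smulRight w)) :
    (mfderiv 𝓘(ℝ, ℝ × ℝ) 𝓘(ℝ, E) F γ c' : E) = w := by
  subst hct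
  have h1 : HasMFDerivAt 𝓘(ℝ, ℝ) 𝓘(ℝ, ℝ × ℝ) c t ((1 : ℝ →L[ℝ] ℝ).smulRight c') :=
    hc.hasMFDerivAt
  have h2 := HasMFDerivAt.comp t hF.hasMFDerivAt h1
  have h3 := hasMFDerivAt_unique h2 h
  have h4 : (mfderiv 𝓘(ℝ, ℝ × ℝ) 𝓘(ℝ, E) F (c t) ((1:ℝ) • c') : E) = (1:ℝ) • w :=
    DFunLike.congr_fun h3 (1:ℝ)
  rwa [one_smul, one_smul] at h4

/-- the derivative of the action in the direction of the plane -/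
theorem mfderiv_act {R Y : (x : M) → TangentSpace 𝓘(ℝ, E) x} {φ ψ : M → ℝ → M}
    (hfl : Fl2 R Y φ ψ) (x : M) (γ : ℝ × ℝ)
    (hF : MDifferentiableAt 𝓘(ℝ, ℝ × ℝ) 𝓘(ℝ, E) (fun s => act φ ψ s x) γ) (p q : ℝ) :
    (mfderiv 𝓘(ℝ, ℝ × ℝ) 𝓘(ℝ, E) (fun s => act φ ψ s x) γ (p, q) : E) =
      p • (R (act φ ψ γ x) : E) + q • (Y (act φ ψ γ x) : E) := by
  have hR : (mfderiv 𝓘(ℝ, ℝ × ℝ) 𝓘(ℝ, E) (fun s => act φ ψ s x) γ ((1, 0) : ℝ × ℝ) : E) =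
      R (act φ ψ γ x) := by
    refine mfderiv_curve (c := fun t => (t, γ.2)) (t := γ.1) hF rfl ?_ ?_
    · have h1 : HasFDerivAt (fun t : ℝ => (t, γ.2)) (ContinuousLinearMap.prod
          (ContinuousLinearMap.id ℝ ℝ) (0 : ℝ →L[ℝ] ℝ)) γ.1 :=
        (hasFDerivAt_id γ.1).prodMk (hasFDerivAt_const γ.2 γ.1)
      refine h1.congr_fderiv ?_
      ext <;> simp
    · exact hfl.φint (ψ x γ.2) γ.1
  have hY : (mfderiv 𝓘(ℝ, ℝ × ℝ) 𝓘(ℝ, E) (fun s => act φ ψ s x) γ ((0, 1) : ℝ × ℝ) : E) =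
      Y (act φ ψ γ x) := by
    refine mfderiv_curve (c := fun t => (γ.1, t)) (t := γ.2) hF rfl ?_ ?_
    · have h1 : HasFDerivAt (fun t : ℝ => (γ.1, t)) (ContinuousLinearMap.prod
          (0 : ℝ →L[ℝ] ℝ) (ContinuousLinearMap.id ℝ ℝ)) γ.2 :=
        (hasFDerivAt_const γ.1 γ.2).prodMk (hasFDerivAt_id γ.2)
      refine h1.congr_fderiv ?_
      ext <;> simp
    · have h2 := hfl.ψint (φ x γ.1) γ.2
      have e : (fun s => act φ ψ ((fun t => (γ.1, t)) s) x) = ψ (φ x γ.1) := by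
        funext s
        exact hfl.comm x s γ.1
      have e2 : act φ ψ γ x = ψ (φ x γ.1) γ.2 := hfl.comm x γ.2 γ.1
      have e3 : (Y (act φ ψ γ x) : E) = Y (ψ (φ x γ.1) γ.2) := by rw [e2]
      rw [e, e3]
      exact h2
  have hpq : ((p, q) : ℝ × ℝ) = p • ((1, 0) : ℝ × ℝ) + q • ((0, 1) : ℝ × ℝ) := by
    ext <;> simp
  set L : (ℝ × ℝ) →L[ℝ] E := mfderiv 𝓘(ℝ, ℝ × ℝ) 𝓘(ℝ, E) (fun s => act φ ψ s x) γ with hL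
  show L (p, q) = _
  rw [hpq, map_add, map_smul, map_smul]
  exact congrArg₂ (fun a b : E => p • a + q • b) hR hY

end

/-- M5b -/
theorem der : DerStm.{u, v, w} := by
  intro E _ _ _ M _ _ _ _ W _ _ _ β R f Y a hN φ ψ hfl hK hform x₀ γ hγ hfix v
  have hx₀ : act φ ψ (γ x₀) x₀ = x₀ := hfix.self_of_nhds
  have hKd : MDifferentiableAt (𝓘(ℝ, ℝ × ℝ).prod 𝓘(ℝ, E)) 𝓘(ℝ, E)
      (fun p : (ℝ × ℝ) × M => act φ ψ p.1 p.2) (γ x₀, x₀) :=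
    hK.mdifferentiableAt (by simp)
  have hγd : MDifferentiableAt 𝓘(ℝ, E) 𝓘(ℝ, ℝ × ℝ) γ x₀ := hγ.mdifferentiableAt (by simp)
  have hF : MDifferentiableAt 𝓘(ℝ, ℝ × ℝ) 𝓘(ℝ, E) (fun s => act φ ψ s x₀) (γ x₀) := by
    have h1 : ContMDiff 𝓘(ℝ, ℝ × ℝ) 𝓘(ℝ, E) ∞ (fun s => act φ ψ s x₀) :=
      hK.comp (contMDiff_id.prodMk contMDiff_const)
    exact h1.mdifferentiableAt (by simp)
  set g' : E →L[ℝ] (ℝ × ℝ) := mfderiv 𝓘(ℝ, E) 𝓘(ℝ, ℝ × ℝ) γ x₀ with hg'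
  -- the chain rule
  have hA : HasMFDerivAt 𝓘(ℝ, E) (𝓘(ℝ, ℝ × ℝ).prod 𝓘(ℝ, E)) (fun x => (γ x, x)) x₀
      (ContinuousLinearMap.prod (g' : E →L[ℝ] (ℝ × ℝ)) (ContinuousLinearMap.id ℝ E)) :=
    HasMFDerivAt.prodMk hγd.hasMFDerivAt (hasMFDerivAt_id x₀)
  have hB := HasMFDerivAt.comp x₀ (f := fun x => (γ x, x))
    (g := fun p : (ℝ × ℝ) × M => act φ ψ p.1 p.2) hKd.hasMFDerivAt hA
  have hC : HasMFDerivAt 𝓘(ℝ, E) 𝓘(ℝ, E) (fun x => act φ ψ (γ x) x) x₀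
      (ContinuousLinearMap.id ℝ E) := by
    have h1 : HasMFDerivAt 𝓘(ℝ, E) 𝓘(ℝ, E) (@id M) x₀ (ContinuousLinearMap.id ℝ E) :=
      hasMFDerivAt_id x₀
    exact h1.congr_of_eventuallyEq hfix
  have hD := hasMFDerivAt_unique hB hC
  have hE : (mfderiv (𝓘(ℝ, ℝ × ℝ).prod 𝓘(ℝ, E)) 𝓘(ℝ, E)
      (fun p : (ℝ × ℝ) × M => act φ ψ p.1 p.2) (γ x₀, x₀) (g' v, (v : E)) : E) = v :=
    DFunLike.congr_fun hD v
  have hG : (mfderiv (𝓘(ℝ, ℝ × ℝ).prod 𝓘(ℝ, E)) 𝓘(ℝ, E)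
      (fun p : (ℝ × ℝ) × M => act φ ψ p.1 p.2) (γ x₀, x₀) (g' v, (v : E)) : E) =
      (mfderiv 𝓘(ℝ, ℝ × ℝ) 𝓘(ℝ, E) (fun s => act φ ψ s x₀) (γ x₀) (g' v) : E) +
      (mfderiv 𝓘(ℝ, E) 𝓘(ℝ, E) (act φ ψ (γ x₀)) x₀ v : E) :=
    mfderiv_prod_eq_add_apply hKd
  rw [hE] at hG
  have hH : (mfderiv 𝓘(ℝ, ℝ × ℝ) 𝓘(ℝ, E) (fun s => act φ ψ s x₀) (γ x₀) (g' v) : E) =
      (g' v).1 • (R (act φ ψ (γ x₀) x₀) : E) + (g' v).2 • (Y (act φ ψ (γ x₀) x₀) : E) :=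
    mfderiv_act hfl x₀ (γ x₀) hF (g' v).1 (g' v).2
  rw [hH] at hG
  -- apply the form
  have hβ1 : (β (act φ ψ (γ x₀) x₀) : E →L[ℝ] ℝ) (R (act φ ψ (γ x₀) x₀) : E) = 1 :=
    hN.cd.reeb.unit _
  have hβ2 : (β (act φ ψ (γ x₀) x₀) : E →L[ℝ] ℝ) (Y (act φ ψ (γ x₀) x₀) : E) = 0 :=
    hN.kerβ _
  have hβ3 := hform (γ x₀) x₀ v
  have hβ4 : (β (act φ ψ (γ x₀) x₀) : E →L[ℝ] ℝ) (v : E) = β x₀ v := by
    have : ∀ z : M, z = x₀ → (β z : E →L[ℝ] ℝ) (v : E) = β x₀ v := by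
      rintro z rfl; rfl
    exact this _ hx₀
  have hI : (β (act φ ψ (γ x₀) x₀) : E →L[ℝ] ℝ) (v : E) =
      (g' v).1 * 1 + (g' v).2 * 0 +
        (β x₀ v + (γ x₀).2 * inner ℝ (a x₀) (DW f x₀ v)) := by
    rw [← hβ1, ← hβ2, ← hβ3]
    have h1 := congrArg (β (act φ ψ (γ x₀) x₀) : E →L[ℝ] ℝ) hG
    refine h1.trans ?_
    rw [map_add, map_add, map_smul, map_smul]
    rfl
  rw [hβ4] at hI
  -- the first component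
  have hJ : (mfderiv 𝓘(ℝ, E) 𝓘(ℝ, ℝ) (fun x => (γ x).1) x₀ v : ℝ) = (g' v).1 := by
    have h1 : HasMFDerivAt 𝓘(ℝ, ℝ × ℝ) 𝓘(ℝ, ℝ) (Prod.fst : ℝ × ℝ → ℝ) (γ x₀)
        (ContinuousLinearMap.fst ℝ ℝ ℝ) :=
      (ContinuousLinearMap.fst ℝ ℝ ℝ).hasFDerivAt.hasMFDerivAt
    have h2 := HasMFDerivAt.comp x₀ h1 hγd.hasMFDerivAt
    have h3 : mfderiv 𝓘(ℝ, E) 𝓘(ℝ, ℝ) (fun x => (γ x).1) x₀ = _ := h2.mfderiv
    rw [h3]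
    rfl
  have key : ∀ b p q c i : ℝ, b = p * 1 + q * 0 + (b + c * i) → p = -c * i := by
    intro b p q c i h
    linarith
  exact hJ.trans (key _ _ _ _ _ hI)

end Pool.Agent.N75.WF
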